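import Pool.Agent.Y481.Defs
import Pool.Agent.W737.AR.Gmt
import Pool.Agent.W398.AR.Ang
import Pool.Agent.W571.AR.Cct

/-!
# Rings of octahedra: the critical value is the maximal volume
-/

set_option autoImplicit false

namespace Pool.Agent.Y482

open Finset Filter Topology Metric
open Pool.Agent.W711.HT Pool.Agent.W719.AR
open Pool.Agent.W709.VC (Dv S_TET S_DSYM S_FIVE)
open Pool.Agent.W374.HT.Cch (der1 der2 hp valh valq)
open Pool.Agent.W737.AR (Lf vol_le TT edge_id hp_symm vertex)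
open Pool.Agent.Y481
open scoped Real

/-- sum over the ring, reindexed -/
lemma sum_succ_mod {M : Type*} [AddCommMonoid M] (n : ℕ) (hn : 1 ≤ n) (F : ℕ → M) :
    ∑ j ∈ range n, F ((j + 1) % n) = ∑ j ∈ range n, F j := by
  obtain ⟨m, rfl⟩ : ∃ m, n = m + 1 := ⟨n - 1, by omega⟩
  rw [sum_range_succ, sum_range_succ']
  congr 1
  · refine sum_congr rfl fun j hj => ?_
    rw [mem_range] at hj
    rw [Nat.mod_eq_of_lt (by omega)]
  · rw [Nat.mod_self]

/-- the data of a critical configuration on the ring, at the edge `j` and at the vertex `j + 1` -/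
lemma rdata {ρ τ κ c : ℝ} {s dl : ℂ → ℂ → ℂ} (hK : KD ρ τ κ c s dl) {n : ℕ} {a : ℕ → ℤ}
    {z : ℕ → ℂ} (hn : 1 ≤ n) (h : RCrit s ρ τ n a z) (j : ℕ) (hj : j < n) :
    (j + 1) % n < n ∧
    HP (z j) (z ((j + 1) % n)) (2 * π * dl (z j) (z ((j + 1) % n))) ∧
    Complex.I * (a ((j + 1) % n) * z ((j + 1) % n) + 2 * π) =
      Lg (2 * π * dl (z j) (z ((j + 1) % n))) (z ((j + 1) % n)) +
      Lg (2 * π * dl (z ((j + 1) % n)) (z (((j + 1) % n + 1) % n))) (z ((j + 1) % n)) := by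
  have h1 : (j + 1) % n < n := Nat.mod_lt _ (by omega)
  have h2 : ((j + 1) % n + 1) % n < n := Nat.mod_lt _ (by omega)
  obtain ⟨m1, i1, n1, e1⟩ := h j hj
  obtain ⟨m2, i2, n2, -⟩ := h _ h1
  obtain ⟨m3, i3, n3, -⟩ := h _ h2
  have z0 : ∀ w : ℂ, 0 < w.im → w ≠ 0 := by
    intro w hw h0
    rw [h0] at hw
    simp at hw
  refine ⟨h1, hp hK m1 m2 (z0 _ i1) (z0 _ i2) n1 n2, ?_⟩
  refine Pool.Agent.W571.AR.eqn' _ _ (deriv (fun w => s (z j) w) (z ((j + 1) % n)) +
      deriv (fun w => s w (z (((j + 1) % n + 1) % n))) (z ((j + 1) % n))) _ ?_ ?_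
  · rw [der2 hK m1 m2, der1 hK m2 m3]
    ring
  · rw [← e1]
    ring

/-- the critical configuration gives an angle structure -/
lemma rang (hS : S_SHP) {ρ τ κ c : ℝ} {s dl : ℂ → ℂ → ℂ} (hK : KD ρ τ κ c s dl) {n : ℕ} {a : ℕ → ℤ}
    {z : ℕ → ℂ} (hn : 1 ≤ n) (h : RCrit s ρ τ n a z) :
    RingAng n a (fun j => fla (z j) (2 * π * dl (z j) (z ((j + 1) % n))))
      (fun j => fla (z ((j + 1) % n)) (2 * π * dl (z j) (z ((j + 1) % n)))) := by
  intro j hj
  obtain ⟨h1, hp1, e1⟩ := rdata hK hn h j hj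
  obtain ⟨-, hp2, -⟩ := rdata hK hn h _ h1
  have hp1' := hp_symm hp1
  refine ⟨(hS _ _ _ hp1).1, (hS _ _ _ hp1').1, (hS _ _ _ hp1).2.1, ?_⟩
  apply Pool.Agent.W398.AR.vok hS (ψ := z ((j + 1) % n))
  · intro x hx
    rcases List.mem_cons.1 hx with rfl | hx
    · exact ⟨_, _, hp1', rfl⟩
    · rw [List.mem_singleton] at hx
      subst hx
      exact ⟨_, _, hp2, rfl⟩
  · simp only [List.map_cons, List.map_nil, List.sum_cons, List.sum_nil, add_zero]
    rw [(hS _ _ _ hp1').2.2.2.2.2, (hS _ _ _ hp2).2.2.2.2.2, ← Complex.add_im, ← e1,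
      Pool.Agent.W398.AR.im_eq]

/-- the volume of this angle structure is the critical value -/
lemma rvol (hV : S_VLF) (hP : S_POTH) {ρ τ κ c : ℝ} {s dl : ℂ → ℂ → ℂ} (hK : KD ρ τ κ c s dl)
    {n : ℕ} {a : ℕ → ℤ} {z : ℕ → ℂ} (hn : 1 ≤ n) (h : RCrit s ρ τ n a z) :
    ringVol n (fun j => fla (z j) (2 * π * dl (z j) (z ((j + 1) % n))))
      (fun j => fla (z ((j + 1) % n)) (2 * π * dl (z j) (z ((j + 1) % n)))) =
      2 * π * (RVal s n a z).re := by
  unfold ringVol RVal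
  rw [Complex.re_sum, mul_sum]
  have e0 : ∀ j ∈ range n, 2 * π * (Complex.I * a j * z j ^ 2 / (4 * π) + Complex.I * z j +
      s (z j) (z ((j + 1) % n))).re =
      (hv (z j) (z ((j + 1) % n)) (2 * π * dl (z j) (z ((j + 1) % n)))) +
      ((z j).im * ((Lg (2 * π * dl (z j) (z ((j + 1) % n))) (z j)).im -
        ((a j : ℝ) * (z j).re + 2 * π))) +
      (z ((j + 1) % n)).im * (Lg (2 * π * dl (z j) (z ((j + 1) % n))) (z ((j + 1) % n))).im := by
    intro j hj
    rw [mem_range] at hj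
    have h1 : (j + 1) % n < n := Nat.mod_lt _ (by omega)
    obtain ⟨m1, i1, n1, -⟩ := h j hj
    obtain ⟨m2, i2, n2, -⟩ := h _ h1
    have t1 := valh hP hK m1 m2 n1 n2
    have t2 := Pool.Agent.W571.AR.val_re (a j) (z j)
    rw [Complex.add_re, mul_add, t1, t2]
    ring
  rw [sum_congr rfl e0, sum_add_distrib, sum_add_distrib,
    ← sum_succ_mod n hn (fun j => (z j).im * ((Lg (2 * π * dl (z j) (z ((j + 1) % n))) (z j)).im -
        ((a j : ℝ) * (z j).re + 2 * π))), add_assoc, ← sum_add_distrib, ← sum_add_distrib]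
  refine sum_congr rfl fun j hj => ?_
  rw [mem_range] at hj
  obtain ⟨h1, hp1, e1⟩ := rdata hK hn h j hj
  rw [hV _ _ _ hp1]
  have e2 := Pool.Agent.W571.AR.im_eq _ _ _ e1
  rw [Complex.add_im] at e2
  linear_combination (z ((j + 1) % n)).im * e2

/-- and it is maximal -/
lemma rmax (htet : S_TET) (hS : S_SHP) (hL : S_LSN) {ρ τ κ c : ℝ} {s dl : ℂ → ℂ → ℂ}
    (hK : KD ρ τ κ c s dl) {n : ℕ} {a : ℕ → ℤ} {z : ℕ → ℂ} (hn : 1 ≤ n) (h : RCrit s ρ τ n a z)
    (f g : ℕ → Fl) (hfg : RingAng n a f g) :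
    ringVol n f g ≤ ringVol n (fun j => fla (z j) (2 * π * dl (z j) (z ((j + 1) % n))))
      (fun j => fla (z ((j + 1) % n)) (2 * π * dl (z j) (z ((j + 1) % n)))) := by
  have h1 : ringVol n f g ≤
      ringVol n (fun j => fla (z j) (2 * π * dl (z j) (z ((j + 1) % n))))
      (fun j => fla (z ((j + 1) % n)) (2 * π * dl (z j) (z ((j + 1) % n)))) -
      2 * ∑ j ∈ range n, (Lf (fla (z j) (2 * π * dl (z j) (z ((j + 1) % n)))) (f j) +
        Lf (fla (z ((j + 1) % n)) (2 * π * dl (z j) (z ((j + 1) % n)))) (g j)) := by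
    unfold ringVol
    rw [mul_sum, ← sum_sub_distrib]
    refine sum_le_sum fun j hj => ?_
    rw [mem_range] at hj
    obtain ⟨-, hp1, -⟩ := rdata hK hn h j hj
    obtain ⟨p1, p2, -, -⟩ := hfg j hj
    have v1 := vol_le htet _ (f j) (hS _ _ _ hp1).1 p1
    have v2 := vol_le htet _ (g j) (hS _ _ _ (hp_symm hp1)).1 p2
    linarith
  have h2 : ∑ j ∈ range n, (Lf (fla (z j) (2 * π * dl (z j) (z ((j + 1) % n)))) (f j) +
        Lf (fla (z ((j + 1) % n)) (2 * π * dl (z j) (z ((j + 1) % n)))) (g j)) = 0 := by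
    have e0 : ∀ j ∈ range n, (Lf (fla (z j) (2 * π * dl (z j) (z ((j + 1) % n)))) (f j) +
        Lf (fla (z ((j + 1) % n)) (2 * π * dl (z j) (z ((j + 1) % n)))) (g j)) =
        TT (z j) (2 * π * dl (z j) (z ((j + 1) % n))) (f j) (g j) +
        TT (z ((j + 1) % n)) (2 * π * dl (z j) (z ((j + 1) % n))) (g j) (f j) := by
      intro j hj
      rw [mem_range] at hj
      obtain ⟨-, hp1, -⟩ := rdata hK hn h j hj
      obtain ⟨p1, p2, p3, -⟩ := hfg j hj
      exact edge_id hS hL hp1 (f j) (g j) p1 p2 p3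
    rw [sum_congr rfl e0, sum_add_distrib, ← sum_succ_mod n hn
      (fun j => TT (z j) (2 * π * dl (z j) (z ((j + 1) % n))) (f j) (g j)), ← sum_add_distrib]
    refine sum_eq_zero fun j hj => ?_
    rw [mem_range] at hj
    obtain ⟨k1, hp1, e1⟩ := rdata hK hn h j hj
    obtain ⟨p1, p2, p3, p4⟩ := hfg j hj
    obtain ⟨q1, q2, q3, q4⟩ := hfg _ k1
    have hv := vertex (z ((j + 1) % n)) (a ((j + 1) % n))
      [((2 * π * dl (z j) (z ((j + 1) % n)), 0), (g j, f j)),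
        ((2 * π * dl (z ((j + 1) % n)) (z (((j + 1) % n + 1) % n)), 0),
          (f ((j + 1) % n), g ((j + 1) % n)))]
      (by
        intro e he
        rcases List.mem_cons.1 he with rfl | he
        · exact ⟨p2, p1⟩
        · rw [List.mem_singleton] at he
          subst he
          exact ⟨q1, q2⟩)
      (by simpa using p4)
      (by
        simp only [List.map_cons, List.map_nil, List.sum_cons, List.sum_nil, add_zero]
        exact e1)
    simp only [List.map_cons, List.map_nil, List.sum_cons, List.sum_nil, add_zero] at hv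
    rw [← hv]
    ring
  rw [h2] at h1
  linarith

theorem geor_of (htet : S_TET) (hS : S_SHP) (hL : S_LSN) (hV : S_VLF) (hP : S_POTH) :
    S_GEOR := by
  intro ρ τ κ c s dl hK n a z hn h
  have hn1 : 1 ≤ n := by omega
  refine ⟨⟨_, _, rang hS hK hn1 h, rvol hV hP hK hn1 h⟩, ?_⟩
  rintro W ⟨f, g, hfg, rfl⟩
  rw [← rvol hV hP hK hn1 h]
  exact rmax htet hS hL hK hn1 h f g hfg

end Pool.Agent.Y482
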