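import Pool.Agent.Y482.GeoR
import Pool.Agent.W864.AR.SHP
import Pool.Agent.W597.AR.Vlf
import Pool.Agent.W930.AR.Lsn
import Pool.Agent.W120.VC.Tet
import Pool.Agent.W505.VC.Five
import Pool.Agent.W583.HTPoth
import Pool.Agent.W612.HT.Hloc
import Pool.Agent.W816.HT.HV
import Pool.Agent.W883.HT.Hid

/-! Rings of octahedra: `S_GEOR` holds. -/

set_option autoImplicit false

namespace Pool.Agent.Y482

open Pool.Agent
open Pool.Agent.W711.HT Pool.Agent.W719.AR

theorem g_SHP : S_SHP := W864.AR.shp W612.HT.hloc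

theorem g_LSN : S_LSN := W930.AR.lsn g_SHP W612.HT.hloc

theorem g_VLF : S_VLF :=
  W597.AR.vlf (W816.HT.hV (W883.HT.Hid.main W505.VC.dsym W505.VC.five) W612.HT.hloc W505.VC.dsym)
    W505.VC.dsym W505.VC.five W612.HT.hloc

theorem geor : Pool.Agent.Y481.S_GEOR :=
  geor_of W120.VC.tet g_SHP g_LSN g_VLF W583.HTP.poth

end Pool.Agent.Y482
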